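import Pool.Agent.H14.BR.Stm

/-! Crew BR, part BDF. -/

set_option autoImplicit false

namespace H2.BR

open ZFSet (pair)
open Pool.Agent.W868
open MeasureTheory H14.ES H46.RF H14.BR

/-- first order form of `IsSigma` -/
def Sg (M : Set ZFSet.{0}) (Re Wd S : ZFSet.{0}) : Prop :=
  (∀ b ∈ S, b ⊆ Re) ∧
  (∀ z ∈ Wd, ∃ b ∈ S, (∀ x ∈ b, z ⊆ x) ∧ ∀ x ∈ Re, z ⊆ x → x ∈ b) ∧
  (∀ b ∈ S, ∃ c ∈ S, (∀ x ∈ c, ¬ x ∈ b) ∧ ∀ x ∈ Re, ¬ x ∈ b → x ∈ c) ∧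
  (∀ f ∈ M, ZFSet.IsFunc ZFSet.omega S f → ∃ c ∈ S,
    (∀ x ∈ c, ∃ i ∈ ZFSet.omega, ∃ b ∈ S, pair i b ∈ f ∧ x ∈ b) ∧
    ∀ i ∈ ZFSet.omega, ∀ b ∈ S, pair i b ∈ f → ∀ x ∈ b, x ∈ c)

theorem isSigma_iff {M : Set ZFSet.{0}} {Re Wd S : ZFSet.{0}}
    (hRe : ∀ x, x ∈ Re ↔ IsRealIn M x) (hW : ∀ z, z ∈ Wd ↔ ∃ r n, z = ini r n) (hS : S ∈ M) :
    IsSigma M S ↔ Sg M Re Wd S := by
  constructor
  · intro h
    refine ⟨fun b hb x hx => (hRe x).2 (h.sub b hb x hx), ?_, ?_, ?_⟩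
    · intro z hz
      obtain ⟨r, n, rfl⟩ := (hW z).1 hz
      obtain ⟨b, hb, h1⟩ := h.basic r n
      exact ⟨b, hb, fun x hx => ((h1 x).1 hx).2, fun x hx hx' => (h1 x).2 ⟨(hRe x).1 hx, hx'⟩⟩
    · intro b hb
      obtain ⟨c, hc, h1⟩ := h.compl b hb
      exact ⟨c, hc, fun x hx => ((h1 x).1 hx).2, fun x hx hx' => (h1 x).2 ⟨(hRe x).1 hx, hx'⟩⟩
    · intro f hf hf'
      obtain ⟨c, hc, h1⟩ := h.union f hf hf'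
      refine ⟨c, hc, fun x hx => ?_, fun i _ b _ hib x hx => (h1 x).2 ⟨i, b, hib, hx⟩⟩
      obtain ⟨i, b, hib, hx'⟩ := (h1 x).1 hx
      have h2 := ZFSet.pair_mem_prod.1 (hf'.1 hib)
      exact ⟨i, h2.1, b, h2.2, hib, hx'⟩
  · rintro ⟨h1, h2, h3, h4⟩
    refine ⟨hS, fun b hb x hx => (hRe x).1 (h1 b hb hx), ?_, ?_, ?_⟩
    · intro r n
      obtain ⟨b, hb, h5, h6⟩ := h2 (ini r n) ((hW _).2 ⟨r, n, rfl⟩)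
      exact ⟨b, hb, fun x => ⟨fun hx => ⟨(hRe x).1 (h1 b hb hx), h5 x hx⟩,
        fun hx => h6 x ((hRe x).2 hx.1) hx.2⟩⟩
    · intro b hb
      obtain ⟨c, hc, h5, h6⟩ := h3 b hb
      exact ⟨c, hc, fun x => ⟨fun hx => ⟨(hRe x).1 (h1 c hc hx), h5 x hx⟩,
        fun hx => h6 x ((hRe x).2 hx.1) hx.2⟩⟩
    · intro f hf hf'
      obtain ⟨c, hc, h5, h6⟩ := h4 f hf hf'
      refine ⟨c, hc, fun x => ⟨fun hx => ?_, ?_⟩⟩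
      · obtain ⟨i, _, b, _, hib, hx'⟩ := h5 x hx
        exact ⟨i, b, hib, hx'⟩
      · rintro ⟨i, b, hib, hx⟩
        have h7 := ZFSet.pair_mem_prod.1 (hf'.1 hib)
        exact h6 i h7.1 b h7.2 hib x hx

theorem bdf (hZ : S_ZRL) (hWr : S_WRD) : S_BDF := by
  intro M hM
  have hB := hM.base
  obtain ⟨⟨Re, hReM, hRe⟩, -, -⟩ := hZ.2.2 M hM
  obtain ⟨-, -, ⟨Wd, hWM, hW⟩, -⟩ := hWr.2.2.2.2.2 M hM
  have hom := hM.infinity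
  obtain ⟨Pw, hPM, hP⟩ := hM.exists_pow hReM
  have hD : Dfn M M fun w : Fin 1 → ZFSet.{0} => ∀ S ∈ M, Sg M Re Wd S → w 0 ∈ S := by
    have h1 : Dfn M M fun w : Fin 1 → ZFSet.{0} => ∀ S ∈ M, ((∀ b ∈ S, b ⊆ Re) ∧
      (∀ z ∈ Wd, ∃ b ∈ S, (∀ x ∈ b, z ⊆ x) ∧ ∀ x ∈ Re, z ⊆ x → x ∈ b) ∧
      (∀ b ∈ S, ∃ c ∈ S, (∀ x ∈ c, ¬ x ∈ b) ∧ ∀ x ∈ Re, ¬ x ∈ b → x ∈ c) ∧
      (∀ f ∈ M, ZFSet.IsFunc ZFSet.omega S f → ∃ c ∈ S,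
        (∀ x ∈ c, ∃ i ∈ ZFSet.omega, ∃ b ∈ S, pair i b ∈ f ∧ x ∈ b) ∧
        ∀ i ∈ ZFSet.omega, ∀ b ∈ S, pair i b ∈ f → ∀ x ∈ b, x ∈ c)) → w 0 ∈ S := by
      (repeat' first
        | assumption
        | exact DfnF.proj _
        | exact DfnF.const (by assumption)
        | exact Dfn.prop _
        | with_reducible apply hB.isFunc'
        | apply Dfn.all
        | apply hB.subset'
        | apply hB.bex | apply hB.ball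
        | apply Dfn.not | apply Dfn.and | apply Dfn.or | apply Dfn.imp | apply Dfn.iff
        | apply Dfn.eq | apply Dfn.mem | apply hB.pair')
    exact h1
  refine ⟨ZFSet.sep (fun b => ∀ S ∈ M, Sg M Re Wd S → b ∈ S) Pw, hM.sep_mem hD hPM, fun b => ?_⟩
  rw [ZFSet.mem_sep, hP]
  constructor
  · rintro ⟨⟨h1, h2⟩, h3⟩
    exact ⟨h1, fun x hx => (hRe x).1 (h2 hx), fun S hS =>
      h3 S hS.mem ((isSigma_iff hRe hW hS.mem).1 hS)⟩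
  · rintro ⟨h1, h2, h3⟩
    exact ⟨⟨h1, fun x hx => (hRe x).2 (h2 x hx)⟩, fun S hS hS' =>
      h3 S ((isSigma_iff hRe hW hS).2 hS')⟩

end H2.BR
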